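import Pool.Agent.LKT.Stmts

/-!
# Squad LKT, row GEX: an explicit generic point
-/

set_option autoImplicit false

namespace Pool.Agent.LKT.H16

open Pool.Agent.LCK Pool.Agent.LKT

/-- Homogeneous integer coordinates of the eight points. -/
def hz : Fin 8 → Fin 4 → ℤ :=
  ![![0, 2, 2, -2], ![1, 3, -3, -3], ![1, 0, 1, -3], ![1, 1, -2, 1], ![1, 0, -1, -3],
    ![1, 2, -3, 2], ![1, 1, 2, 0], ![0, 3, 2, 2]]

/-- The determinant of four integer vectors. -/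
def dz (p q r s : Fin 4 → ℤ) : ℤ :=
  p 0 * (q 1 * (r 2 * s 3 - r 3 * s 2) - q 2 * (r 1 * s 3 - r 3 * s 1) +
      q 3 * (r 1 * s 2 - r 2 * s 1)) -
    p 1 * (q 0 * (r 2 * s 3 - r 3 * s 2) - q 2 * (r 0 * s 3 - r 3 * s 0) +
      q 3 * (r 0 * s 2 - r 2 * s 0)) +
    p 2 * (q 0 * (r 1 * s 3 - r 3 * s 1) - q 1 * (r 0 * s 3 - r 3 * s 0) +
      q 3 * (r 0 * s 1 - r 1 * s 0)) -
    p 3 * (q 0 * (r 1 * s 2 - r 2 * s 1) - q 1 * (r 0 * s 2 - r 2 * s 0) +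
      q 2 * (r 0 * s 1 - r 1 * s 0))

/-- The explicit form of `d4`. -/
theorem d4_eq (p q r s : Fin 4 → ℝ) : d4 p q r s =
    p 0 * (q 1 * (r 2 * s 3 - r 3 * s 2) - q 2 * (r 1 * s 3 - r 3 * s 1) +
      q 3 * (r 1 * s 2 - r 2 * s 1)) -
    p 1 * (q 0 * (r 2 * s 3 - r 3 * s 2) - q 2 * (r 0 * s 3 - r 3 * s 0) +
      q 3 * (r 0 * s 2 - r 2 * s 0)) +
    p 2 * (q 0 * (r 1 * s 3 - r 3 * s 1) - q 1 * (r 0 * s 3 - r 3 * s 0) +
      q 3 * (r 0 * s 1 - r 1 * s 0)) -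
    p 3 * (q 0 * (r 1 * s 2 - r 2 * s 1) - q 1 * (r 0 * s 2 - r 2 * s 0) +
      q 2 * (r 0 * s 1 - r 1 * s 0)) := by
  unfold d4
  rw [Matrix.det_succ_row_zero]
  simp [Fin.sum_univ_succ, Matrix.det_fin_three, Fin.succAbove]
  ring

/-- The points. -/
noncomputable def x0 : Fin 8 → E3 := fun k => WithLp.toLp 2 ![(hz k 1 : ℝ), (hz k 2 : ℝ), (hz k 3 : ℝ)]

theorem hz_zero : ∀ k, hz k 0 = if k = 0 ∨ k = 7 then 0 else 1 := by decide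

theorem hom_x0 (k : Fin 8) (i : Fin 4) : hom x0 k i = ((hz k i : ℤ) : ℝ) := by
  fin_cases i
  · change (if k = 0 ∨ k = 7 then (0 : ℝ) else 1) = ((hz k 0 : ℤ) : ℝ)
    rw [hz_zero]
    split_ifs <;> simp
  · rfl
  · rfl
  · rfl

theorem D_x0 (a b c d : Fin 8) :
    D x0 a b c d = ((dz (hz a) (hz b) (hz c) (hz d) : ℤ) : ℝ) := by
  unfold D
  rw [d4_eq]
  simp only [hom_x0]
  unfold dz
  push_cast
  ring

theorem dz1 : ∀ a b : Fin 8, a < b → ∀ c : Fin 8, b < c → ∀ d : Fin 8, c < d →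
    dz (hz a) (hz b) (hz c) (hz d) ≠ 0 := by
  decide +kernel

theorem dz2 : ∀ a b : Fin 8, 1 ≤ a → a < b → b ≤ 6 → ∀ p : Fin 8, a ≠ p → b ≠ p →
    ∀ q : Fin 8, p < q → a ≠ q → b ≠ q → ∀ r : Fin 8, q < r → a ≠ r → b ≠ r →
    dz (hz a) (hz p) (hz q) (hz r) - dz (hz b) (hz p) (hz q) (hz r) ≠ 0 := by
  decide +kernel

/-- **Row GEX.** -/
theorem gex : GexStmt := by
  refine ⟨x0, ?_, ?_⟩
  · intro a b c d hab hbc hcd
    rw [D_x0]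
    exact Int.cast_ne_zero.2 (dz1 a b hab c hbc d hcd)
  · intro a b p q r h1 hab h6 hpq hqr hap haq har hbp hbq hbr
    rw [D_x0, D_x0, ← Int.cast_sub]
    exact Int.cast_ne_zero.2 (dz2 a b h1 hab h6 p hap hbp q hpq haq hbq r hqr har hbr)

end Pool.Agent.LKT.H16
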